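import Pool.Agent.H484.HH.Stm

/-!
# Project HH, job DYAD: the dyadic sum (by helper603)
-/

set_option autoImplicit false

open Finset

namespace Pool.Agent.H484.HH

namespace DYADaux

theorem sum_le (m : ℕ) : ∀ y : ℝ, 0 < y →
    (y ≤ 1 → ∑ i ∈ range m, min 1 (Real.sqrt (y / 2 ^ i)) ≤ 4 * Real.sqrt y) ∧
    (1 ≤ y → ∑ i ∈ range m, min 1 (Real.sqrt (y / 2 ^ i)) ≤ 4 + 2 * Real.log y) := by
  induction m with
  | zero =>
    intro y hy
    refine ⟨fun _ => by simp, fun h => ?_⟩
    have := Real.log_nonneg h
    simp only [range_zero, sum_empty]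
    linarith
  | succ m ih =>
    intro y hy
    have h1 : ∑ i ∈ range (m + 1), min 1 (Real.sqrt (y / 2 ^ i)) =
        ∑ i ∈ range m, min 1 (Real.sqrt (y / 2 / 2 ^ i)) + min 1 (Real.sqrt y) := by
      rw [Finset.sum_range_succ']
      simp only [pow_zero, div_one]
      congr 1
      apply Finset.sum_congr rfl
      intro i _
      rw [div_div, pow_succ']
    obtain ⟨h2, h3⟩ := ih (y / 2) (by linarith)
    have hs : Real.sqrt (y / 2) ^ 2 = y / 2 := Real.sq_sqrt (by linarith)
    have hs0 : 0 ≤ Real.sqrt (y / 2) := Real.sqrt_nonneg _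
    have ht : Real.sqrt y ^ 2 = y := Real.sq_sqrt hy.le
    have ht0 : 0 < Real.sqrt y := Real.sqrt_pos.2 hy
    rw [h1]
    refine ⟨fun hy1 => ?_, fun hy1 => ?_⟩
    · have h4 := h2 (by linarith)
      have h5 : min 1 (Real.sqrt y) ≤ Real.sqrt y := min_le_right _ _
      have h6 : Real.sqrt (y / 2) ≤ 3 / 4 * Real.sqrt y := by
        apply Real.sqrt_le_iff.2
        constructor
        · positivity
        · nlinarith
      linarith
    · have h5 : min 1 (Real.sqrt y) ≤ 1 := min_le_left _ _
      rcases le_total y 2 with hy2 | hy2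
      · have h4 := h2 (by linarith)
        have h6 : 4 * Real.sqrt (y / 2) ≤ y + 2 := by nlinarith [sq_nonneg (Real.sqrt (y / 2) - 1)]
        have h7 : 1 - 1 / y ≤ Real.log y := by
          have := Real.one_sub_inv_le_log_of_pos hy
          simpa using this
        have h8 : (y - 1) / 2 ≤ 1 - 1 / y := by
          rw [div_le_iff₀ two_pos, one_sub_div hy.ne', div_mul_eq_mul_div, le_div_iff₀ hy]
          nlinarith
        linarith
      · have h4 := h3 (by linarith)
        have h6 : Real.log (y / 2) = Real.log y - Real.log 2 := Real.log_div hy.ne' two_ne_zero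
        have h7 := Real.log_two_gt_d9
        rw [h6] at h4
        linarith

end DYADaux

open DYADaux in
theorem t_DYAD : S_DYAD := by
  intro x T J hx hT
  induction J generalizing x with
  | zero =>
    have := Real.log_nonneg hT
    simp only [range_zero, filter_empty, sum_empty]
    linarith
  | succ J ih =>
    have hl := Real.log_nonneg hT
    rcases le_or_gt 1 (2 * x) with h | h
    · have h1 : ∑ j ∈ (range (J + 1)).filter (fun j => 1 ≤ 2 * (2 ^ j * x)), min 1 (Real.sqrt (T / (2 ^ j * x))) ≤
          ∑ i ∈ range (J + 1), min 1 (Real.sqrt ((2 * T) / 2 ^ i)) := by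
        refine (Finset.sum_le_sum_of_subset_of_nonneg (Finset.filter_subset _ _) fun i _ _ => ?_).trans
          (Finset.sum_le_sum fun i _ => ?_)
        · exact le_min zero_le_one (Real.sqrt_nonneg _)
        · apply min_le_min le_rfl
          apply Real.sqrt_le_sqrt
          have h2 : (0 : ℝ) < 2 ^ i := by positivity
          rw [div_le_div_iff₀ (mul_pos h2 hx) h2]
          nlinarith [mul_nonneg (mul_nonneg (zero_le_one.trans hT) h2.le) (sub_nonneg.2 h)]
      have h2 := (sum_le (J + 1) (2 * T) (by linarith)).2 (by linarith)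
      rw [Real.log_mul two_ne_zero (by linarith)] at h2
      have h3 := Real.log_two_lt_d9
      linarith
    · have h1 : ∑ j ∈ (range (J + 1)).filter (fun j => 1 ≤ 2 * (2 ^ j * x)), min 1 (Real.sqrt (T / (2 ^ j * x))) =
          ∑ j ∈ (range J).filter (fun j => 1 ≤ 2 * (2 ^ j * (2 * x))),
            min 1 (Real.sqrt (T / (2 ^ j * (2 * x)))) := by
        rw [Finset.sum_filter, Finset.sum_filter, Finset.sum_range_succ']
        have h2 : ¬ 1 ≤ 2 * (2 ^ 0 * x) := by
          rw [pow_zero, one_mul]
          exact not_le.2 h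
        rw [if_neg h2, add_zero]
        apply Finset.sum_congr rfl
        intro j _
        have h3 : (2 : ℝ) ^ (j + 1) * x = 2 ^ j * (2 * x) := by ring
        rw [h3]
      rw [h1]
      exact ih (2 * x) (by linarith)

end Pool.Agent.H484.HH
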